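import Mathlib
import Pool.Agent.V11103.ErgLebDefs
import Pool.Agent.V11103.ErgLeb

set_option autoImplicit false

open Filter Topology MeasureTheory
open scoped ENNReal

namespace Pool.Agent.Results.MP_894476_an.ErgodicDifferentiation

open Pool.Agent.V11103

/-- If `μ` has the Lebesgue differentiation property, then for every `μ`-preserving `T`, every
`p > 1` and every `f ∈ L^p(μ)`, the averages `U_{r,k} f(x)` of `A_k f` over `B(x,r)` converge to
`f^*(x) = E[f | 𝓘](x)` as `r ↘ 0` and `k → ∞` jointly, for `μ`-almost every `x`. -/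
theorem result (X : Type*) [MetricSpace X] [MeasurableSpace X] [BorelSpace X]
    (μ : Measure X) [IsProbabilityMeasure μ] (hL : LebesgueDifferentiation μ)
    (T : X → X) (hT : MeasurePreserving T μ μ) (p : ℝ≥0∞) (hp : 1 < p)
    (f : X → ℝ) (hf : MemLp f p μ) :
    ∀ᵐ x ∂μ, Tendsto (fun q : ℝ × ℕ => ballMean μ (timeMean T f q.2) x q.1)
      (𝓝[>] 0 ×ˢ atTop) (𝓝 ((μ[f | MeasurableSpace.invariants T]) x)) :=
  ergLeb hL hT hp hf

end Pool.Agent.Results.MP_894476_an.ErgodicDifferentiation
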